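import Pool.Agent.H92.BF.Targets

/-!
# Derivatives of values of polynomials (modules DV, JAC)
-/

set_option autoImplicit false

namespace Pool.Agent.H56.BIN

open MvPolynomial SC Pool.Agent.H27.LV Pool.Agent.H92.BF

theorem pf_DV : T_DV := by
  intro k K _ _ _ δ x P
  induction P using MvPolynomial.induction_on with
  | C a =>
    simp [MvPolynomial.aeval_C]
  | add p q hp hq =>
    simp only [map_add, hp, hq]
    ring
  | mul_X p i hp =>
    rw [map_mul, Derivation.leibniz, hp, MvPolynomial.aeval_X, pderiv_mul, pderiv_mul]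
    fin_cases i
    · simp [pderiv_X]
      ring
    · simp [pderiv_X]
      ring

/-- the relation of Euler -/
theorem euler2 {k K : Type} [Field k] [Field K] [Algebra k K] (x : Fin 2 → K) {p : ℕ}
    {A : MvPolynomial (Fin 2) k} (hA : A.IsHomogeneous p) :
    (p : K) * aeval x A = x 0 * aeval x (pderiv 0 A) + x 1 * aeval x (pderiv 1 A) := by
  have h := congrArg (aeval x) hA.sum_X_mul_pderiv
  rw [map_sum, Fin.sum_univ_two, map_mul, map_mul, aeval_X, aeval_X, map_nsmul,
    nsmul_eq_mul] at h
  exact h.symm

theorem pf_JAC (hDV : T_DV) : T_JAC := by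
  intro k K _ _ _ δ x p q A B hA hB
  have h1 := euler2 x hA
  have h2 := euler2 x hB
  rw [h1, h2, hDV k K δ x A, hDV k K δ x B, Jc, wr, map_sub, map_mul, map_mul]
  ring

end Pool.Agent.H56.BIN
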